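import Pool.Agent.helper70.QSD.SpecB

/-! # Project qsd, row FS2: from the data at one index to the map `χ` -/

set_option linter.unusedVariables false

namespace Pool.Agent.helper70.QSD

open Pool.Agent.helper53.AU
open scoped Classical IntermediateField Polynomial

noncomputable section

theorem FS2_dvd (hEVR : EVR_stmt) (c b : kk) (P U : kk[X][X]) (h0 : ev c b P = 0) (hd : P ∣ U) : ev c b U = 0 := by
  obtain ⟨V, rfl⟩ := hd
  rw [(hEVR.1 kk kk c b).2.2.1, h0, zero_mul]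

theorem FS2 (hEVR : EVR_stmt) (hCHB : CHB_stmt) (hEVL : EVL_stmt) : FS2_stmt := by
  intro d
  obtain ⟨N₀, hN₀⟩ := hCHB d
  refine ⟨N₀, fun N hN m σ hσ Φ A E cst P h Gr G Gx hp => ?_⟩
  obtain ⟨c, b, hc, hP, hh, hG⟩ := hN₀ N hN kk σ hσ P m hp.mon hp.irr hp.deg hp.dm hp.dP h h hp.hne hp.dh
    (dvd_refl h) Gr hp.rt hp.dist G hp.frz
  obtain ⟨e1, e2, e3, e4, e5, e6⟩ := hEVR.1 kk kk c b
  have e4' : ∀ h : kk[X], ev c b (Polynomial.C h) = Polynomial.eval c h := by
    intro h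
    rw [e4, Polynomial.coe_aeval_eq_eval]
  refine ⟨fun x => ev c b (Gx x) / Polynomial.eval c h, ?_, ?_, ?_, ?_⟩
  · intro x hx hxA
    have h1 := FS2_dvd hEVR c b P _ hP (hp.cons x hx hxA)
    rw [e2, e4', Polynomial.eval_mul, Polynomial.eval_C, sub_eq_zero] at h1
    show ev c b (Gx x) / Polynomial.eval c h = cst x
    rw [h1, mul_div_assoc, div_self hh, mul_one]
  · intro x hx x' hx' hxx
    have h1 := FS2_dvd hEVR c b P _ hP (hp.add x hx x' hx' hxx)
    rw [e2, e1, sub_eq_zero] at h1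
    show ev c b (Gx (x + x')) / Polynomial.eval c h = ev c b (Gx x) / Polynomial.eval c h +
      ev c b (Gx x') / Polynomial.eval c h
    rw [h1, add_div]
  · intro x hx x' hx' hxx
    have h1 := FS2_dvd hEVR c b P _ hP (hp.mul x hx x' hx' hxx)
    rw [e2, e3, e3, e4', sub_eq_zero] at h1
    show ev c b (Gx (x * x')) / Polynomial.eval c h = ev c b (Gx x) / Polynomial.eval c h *
      (ev c b (Gx x') / Polynomial.eval c h)
    rw [div_mul_div_comm, ← h1, mul_div_mul_left _ _ hh]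
  · intro x hx hxΦ
    obtain ⟨M, hM, hd⟩ := hp.fro x hx hxΦ
    exact hEVL N σ hσ P h G (Gx x) (Gx (Φ x)) M c b hc hP hh hG hM hd

end

end Pool.Agent.helper70.QSD
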