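import Pool.Agent.helper70.QSD.SpecC

/-! # Project qsd, row GC1: separability after a root extraction -/

set_option linter.unusedVariables false

namespace Pool.Agent.helper70.QSD

open Pool.Agent.helper53.AU
open scoped Classical IntermediateField Polynomial

noncomputable section

/-- some `p^n`-th power of an algebraic element is separable -/
theorem GC1_pow (M Ω : Type) [Field M] [Field Ω] [Algebra M Ω] [CharP M 2] (x : Ω) (hx : IsAlgebraic M x) :
    ∃ n : ℕ, IsSeparable M (x ^ 2 ^ n) := by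
  have : ExpChar M 2 := ExpChar.prime Nat.prime_two
  obtain ⟨g, hg, n, hn⟩ := Irreducible.hasSeparableContraction 2 (minpoly.irreducible hx.isIntegral)
  refine ⟨n, ?_⟩
  have h0 : Polynomial.aeval (x ^ 2 ^ n) g = 0 := by
    rw [← Polynomial.expand_aeval, hn, minpoly.aeval]
  exact hg.of_dvd (minpoly.dvd M _ h0)

/-- higher powers too -/
theorem GC1_pow_le (M Ω : Type) [Field M] [Field Ω] [Algebra M Ω] (x : Ω) (n J : ℕ) (hnJ : n ≤ J)
    (hx : IsSeparable M (x ^ 2 ^ n)) : IsSeparable M (x ^ 2 ^ J) := by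
  obtain ⟨r, rfl⟩ := Nat.exists_eq_add_of_le hnJ
  rw [pow_add, pow_mul]
  rw [← mem_separableClosure_iff] at hx ⊢
  exact pow_mem hx _

theorem GC1 (hACL : ACL_stmt) : GC1_stmt := by
  intro Φ A hA y hy E hE
  obtain ⟨hac, hch⟩ := hACL
  have : ExpChar KS 2 := ExpChar.prime Nat.prime_two
  have hpr : PerfectRing KS 2 := PerfectField.toPerfectRing 2
  have hcM : CharP A⟮y⟯ 2 := (RingHom.charP_iff (algebraMap A⟮y⟯ KS) (algebraMap A⟮y⟯ KS).injective 2).2 hch
  -- one exponent for all elements of `E`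
  have hn : ∀ x : KS, ∃ n : ℕ, x ∈ E → IsSeparable A⟮y⟯ (x ^ 2 ^ n) := by
    intro x
    by_cases hx : x ∈ E
    · obtain ⟨n, hn⟩ := GC1_pow A⟮y⟯ KS x (hE x hx)
      exact ⟨n, fun _ => hn⟩
    · exact ⟨0, fun h => absurd h hx⟩
  choose nn hnn using hn
  let J : ℕ := ∑ x ∈ E, nn x
  have hJ : ∀ x ∈ E, IsSeparable A⟮y⟯ (x ^ 2 ^ J) := by
    intro x hx
    exact GC1_pow_le A⟮y⟯ KS x (nn x) J (Finset.single_le_sum (f := nn) (fun _ _ => Nat.zero_le _) hx) (hnn x hx)
  let FJ : KS ≃+* KS := iterateFrobeniusEquiv KS 2 J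
  have hFJ : ∀ x : KS, FJ x = x ^ 2 ^ J := fun x => rfl
  have hy1 : (FJ.symm y) ^ 2 ^ J = y := by
    rw [← hFJ, RingEquiv.apply_symm_apply]
  have hinj : Function.Injective fun x : KS => x ^ 2 ^ J := FJ.injective
  refine ⟨J, FJ.symm y, hy1, ?_, ?_⟩
  · apply hinj
    show (Φ (FJ.symm y)) ^ 2 ^ J = (FJ.symm y) ^ 2 ^ J
    rw [← map_pow, hy1, hy]
  · -- `FJ.symm` maps `A⟮y⟯` into `A⟮y₁⟯`
    have hmap : ∀ u ∈ A⟮y⟯, FJ.symm u ∈ A⟮FJ.symm y⟯ := by
      intro u hu
      induction hu using IntermediateField.adjoin_induction with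
      | mem v hv =>
        rw [Set.mem_singleton_iff] at hv
        rw [hv]
        exact IntermediateField.mem_adjoin_simple_self _ _
      | algebraMap a =>
        have h1 : FJ.symm (algebraMap A KS a) ∈ A := by
          apply hA.acl
          have h2 : Polynomial.aeval (FJ.symm (algebraMap A KS a))
              (Polynomial.X ^ 2 ^ J - Polynomial.C a : A[X]) = 0 := by
            rw [map_sub, map_pow, Polynomial.aeval_X, Polynomial.aeval_C, ← hFJ, RingEquiv.apply_symm_apply, sub_self]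
          exact ⟨_, Polynomial.X_pow_sub_C_ne_zero (by positivity) a, h2⟩
        exact IntermediateField.algebraMap_mem _ (⟨_, h1⟩ : A)
      | add u v _ _ hu hv => rw [map_add]; exact add_mem hu hv
      | inv u _ hu => rw [map_inv₀]; exact inv_mem hu
      | mul u v _ _ hu hv => rw [map_mul]; exact mul_mem hu hv
    let ψ : A⟮y⟯ →+* A⟮FJ.symm y⟯ :=
      { toFun := fun u => ⟨FJ.symm u, hmap u u.2⟩
        map_one' := by ext; simp
        map_mul' := fun u v => by ext; simp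
        map_zero' := by ext; simp
        map_add' := fun u v => by ext; simp }
    intro x hx
    have hs := hJ x hx
    have hsep : ((minpoly A⟮y⟯ (x ^ 2 ^ J)).map ψ).Separable := Polynomial.Separable.map hs
    refine hsep.of_dvd (minpoly.dvd _ _ ?_)
    have h3 : Polynomial.aeval (x ^ 2 ^ J) (minpoly A⟮y⟯ (x ^ 2 ^ J)) = 0 := minpoly.aeval _ _
    rw [Polynomial.aeval_def, Polynomial.eval₂_map]
    have h4 : ((algebraMap A⟮FJ.symm y⟯ KS).comp ψ) = (FJ.symm : KS →+* KS).comp (algebraMap A⟮y⟯ KS) := by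
      ext u
      rfl
    have h5 : x = (FJ.symm : KS →+* KS) (x ^ 2 ^ J) := by
      show x = FJ.symm (x ^ 2 ^ J)
      rw [← hFJ, RingEquiv.symm_apply_apply]
    rw [h4]
    rw [show Polynomial.eval₂ ((FJ.symm : KS →+* KS).comp (algebraMap A⟮y⟯ KS)) x (minpoly A⟮y⟯ (x ^ 2 ^ J)) =
      Polynomial.eval₂ ((FJ.symm : KS →+* KS).comp (algebraMap A⟮y⟯ KS)) ((FJ.symm : KS →+* KS) (x ^ 2 ^ J))
        (minpoly A⟮y⟯ (x ^ 2 ^ J)) from by rw [← h5]]
    rw [← Polynomial.hom_eval₂, ← Polynomial.aeval_def, h3, map_zero]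

end

end Pool.Agent.helper70.QSD
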